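import Pool.Agent.H39.Hahn3

namespace Pool.Agent.Results.MP_e86704_lc.Many

open Set Cardinal

/-- `(A, B)` is a cut of the chain `T`. -/
def IsCut {T : Type} [LinearOrder T] (A B : Set T) : Prop :=
  A.Nonempty ∧ B.Nonempty ∧ (∀ a ∈ A, ∀ b ∈ B, a < b) ∧ (∀ a ∈ A, ∃ a' ∈ A, a < a') ∧
    (∀ b ∈ B, ∃ b' ∈ B, b' < b) ∧
    (A ∪ B = Set.univ ∨ ∃ r : T, (∀ a ∈ A, a < r) ∧ (∀ b ∈ B, r < b) ∧ A ∪ {r} ∪ B = Set.univ)

/-- `C(T) ∩ (ω × ω)`: pairs `(m, n)` such that some cut `(A, B)` has `A` of cofinality `ℵ_m`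
and `B` of coinitiality `ℵ_n`. -/
def chars (T : Type) [LinearOrder T] : Set (ℕ × ℕ) :=
  {p | ∃ A B : Set T, IsCut A B ∧ Order.cof A = aleph (p.1 : Ordinal.{0}) ∧
    Order.cof (OrderDual B) = aleph (p.2 : Ordinal.{0})}

/-- any two nondegenerate closed bounded intervals are order-isomorphic -/
def TwoHom (T : Type) [LinearOrder T] : Prop :=
  ∀ a b c d : T, a < b → c < d → Nonempty (Icc a b ≃o Icc c d)

/-- `C` is `C(T) ∩ (ω × ω)` for a 2-homogeneous dense chain `T` with at least two points -/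
def Realizable (C : Set (ℕ × ℕ)) : Prop :=
  ∃ (T : Type) (_ : LinearOrder T), Nontrivial T ∧ DenselyOrdered T ∧ TwoHom T ∧ chars T = C

open Pool.Agent.H39.Hahn1 Pool.Agent.H39.Hahn2 Pool.Agent.H39.Hahn3

theorem gap_of_mem {T : Type} [LinearOrder T] {m : ℕ} (h : (m + 1, m + 1) ∈ chars T) :
    Gap1 (W m) T := by
  obtain ⟨A, B, ⟨-, -, hAB, -, -, hu⟩, hA, hB⟩ := h
  have h1 := exists_seq A
  have h2 := exists_seq (OrderDual B)
  rw [hA] at h1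
  rw [hB] at h2
  obtain ⟨f, hf, hfc⟩ := h1
  obtain ⟨g, hg, hgc⟩ := h2
  have hmid : ∀ u, (∀ i, (f i).1 < u ∧ u < (OrderDual.ofDual (g i)).1) → u ∉ A ∧ u ∉ B := by
    intro u hu
    constructor
    · intro h
      obtain ⟨i, hi⟩ := hfc ⟨u, h⟩
      exact absurd (hu i).1 (not_lt.2 hi)
    · intro h
      obtain ⟨i, hi⟩ := hgc (OrderDual.toDual ⟨u, h⟩)
      exact absurd (hu i).2 (not_lt.2 hi)
  refine ⟨fun i => (f i).1, fun i => (OrderDual.ofDual (g i)).1,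
    up_of_strict fun a b hab => hf hab, dn_of_strict fun a b hab => hg hab,
    fun i j => hAB _ (f i).2 _ (OrderDual.ofDual (g j)).2, fun u v hu' hv' => ?_⟩
  obtain ⟨h1, h2⟩ := hmid u hu'
  obtain ⟨h3, h4⟩ := hmid v hv'
  rcases hu with hu | ⟨r, -, -, hu⟩
  · have : u ∈ A ∪ B := hu ▸ mem_univ u
    exact (this.elim h1 h2).elim
  · have e1 : u ∈ A ∪ {r} ∪ B := hu ▸ mem_univ u
    have e2 : v ∈ A ∪ {r} ∪ B := hu ▸ mem_univ v
    simp only [mem_union, mem_singleton_iff, h1, h2, h3, h4, false_or, or_false] at e1 e2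
    rw [e1, e2]

theorem mem_of_gap {T : Type} [LinearOrder T] {m : ℕ} (h : Gap0 (W m) T) :
    (m + 1, m + 1) ∈ chars T := by
  obtain ⟨x, y, hx, hy, hxy, h⟩ := h
  obtain ⟨w⟩ := (unc_W m).1
  refine ⟨{t | ∃ i, t ≤ x i}, {t | ∃ i, y i ≤ t}, ⟨⟨x w, w, le_rfl⟩, ⟨y w, w, le_rfl⟩, ?_, ?_, ?_,
    Or.inl ?_⟩, ?_, ?_⟩
  · rintro a ⟨i, hi⟩ b ⟨j, hj⟩
    exact (hi.trans_lt (hxy i j)).trans_le hj
  · rintro a ⟨i, hi⟩
    obtain ⟨j, hj⟩ := hx.2 i
    exact ⟨x j, ⟨j, le_rfl⟩, hi.trans_lt hj⟩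
  · rintro a ⟨i, hi⟩
    obtain ⟨j, hj⟩ := hy.2 i
    exact ⟨y j, ⟨j, le_rfl⟩, hj.trans_le hi⟩
  · refine eq_univ_of_forall fun u => ?_
    by_contra hc
    simp only [mem_union, mem_setOf_eq, not_or, not_exists, not_le] at hc
    exact h u fun i => ⟨hc.1 i, hc.2 i⟩
  · rw [← cof_W]
    symm
    refine cof_eq_of_up (f := fun i => (⟨x i, i, le_rfl⟩ : {t | ∃ i, t ≤ x i}))
      ⟨fun a b hab => hx.1 hab, fun i => hx.2 i⟩ ?_
    rintro ⟨b, i, hi⟩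
    exact ⟨i, hi⟩
  · rw [← cof_W]
    symm
    refine cof_eq_of_up (f := fun i => OrderDual.toDual (⟨y i, i, le_rfl⟩ : {t | ∃ i, y i ≤ t}))
      ⟨fun a b hab => hy.1 hab, fun i => hy.2 i⟩ ?_
    rintro ⟨b, i, hi⟩
    exact ⟨i, hi⟩

theorem real_TT (S : Set ℕ) : Realizable (chars (TT S)) :=
  ⟨TT S, inferInstance, ⟨0, mo 0 1, (mo_pos _ one_pos).ne⟩, inferInstance,
    fun _ _ _ _ hab hcd => twoHom hab hcd, rfl⟩

theorem inj_TT : Function.Injective fun S : Set ℕ => chars (TT S) := by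
  have key : ∀ (S : Set ℕ) (m : ℕ), (m + 1, m + 1) ∈ chars (TT S) ↔ m ∈ S := fun S m =>
    ⟨fun h => gap1_TT (gap_of_mem h), fun h => mem_of_gap (gap0_TT h)⟩
  intro S S' h
  ext m
  rw [← key, ← key]
  beta_reduce at h
  rw [h]

theorem result : ¬ {C : Set (ℕ × ℕ) | Realizable C}.Countable ∧
    Cardinal.mk {C : Set (ℕ × ℕ) | Realizable C} = Cardinal.continuum := by
  have h1 : Cardinal.mk {C : Set (ℕ × ℕ) | Realizable C} = Cardinal.continuum := by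
    apply le_antisymm
    · refine (mk_set_le _).trans_eq ?_
      simp
    · have := mk_le_of_injective
        (f := fun S : Set ℕ => (⟨chars (TT S), real_TT S⟩ : {C : Set (ℕ × ℕ) | Realizable C}))
        fun S S' h => inj_TT (congrArg Subtype.val h)
      rwa [mk_set, mk_nat, two_power_aleph0] at this
  refine ⟨fun h => ?_, h1⟩
  rw [← le_aleph0_iff_set_countable, h1] at h
  exact absurd aleph0_lt_continuum (not_lt.2 h)

end Pool.Agent.Results.MP_e86704_lc.Many
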